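import Pool.Agent.H61.KW.TB

/-! Module of the board kw_modules. -/

set_option autoImplicit false

open Topology Set
open Pool.Agent.H59 Pool.Agent.H64.LB Pool.Agent.H61.KU Pool.Agent.H61.KV Pool.Agent.H61.KW

namespace Pool.Agent.H76.KW.NSC

theorem pf_NSC (h : T_SCM) (h2 : T_XSP) : T_NSC := by
  intro V _ _ _ m hK hS q hq hsc
  obtain ⟨g, hg⟩ := hK.tr q hq
  have hqC := hK.mem q hq
  have h9 := ov_rk hK.cc hK.span hqC hg.mem hg.ov
  rw [hK.fin] at h9
  obtain ⟨x, hx, -, hxW⟩ := h2 V (Cn m) (q + g) (Sp (Cn m) q) hK.cc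
    (hK.cc.add q hqC g hg.mem) (by
      rw [h9]
      have := hK.rk4 q hq
      unfold Pool.Agent.H61.KW.rk at this
      omega)
  exact hS q x hq hx (h V m hK q hq hsc x hx.1 (fun hh => hxW (mem_sp hh)))

end Pool.Agent.H76.KW.NSC
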