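import Pool.Agent.H61.KW.TB

/-! Module of the board kw_modules. -/

set_option autoImplicit false

open Topology Set
open Pool.Agent.H59 Pool.Agent.H64.LB Pool.Agent.H61.KU Pool.Agent.H61.KV Pool.Agent.H61.KW

namespace Pool.Agent.H76.KW.NST

theorem pf_NST (h : T_R1S) (h2 : T_SCM) (h3 : T_MN1) (h4 : T_N1S) : T_NST := by
  intro V _ _ _ m hK hS
  unfold Pool.Agent.H61.KW.Star at hS
  push Not at hS
  obtain ⟨q, x, hq, hx, hov⟩ := hS
  exact h4 V m hK (h3 V m hK q hq (h2 V m hK q hq (h V m hK q x hq hx hov).2))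

end Pool.Agent.H76.KW.NST
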