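import Pool.Agent.H61.KW.TB

/-! Module of the board kw_modules. -/

set_option autoImplicit false

open Topology Set
open Pool.Agent.H59 Pool.Agent.H64.LB Pool.Agent.H61.KU Pool.Agent.H61.KV Pool.Agent.H61.KW

namespace Pool.Agent.H76.KW.TRR

theorem pf_TRR (h : T_TFT) : T_TRR := by
  intro V _ _ _ m hK q q' hq hq' hov
  have hC := hK.cc
  have hqC := hK.mem q hq
  have hqC' := hK.mem q' hq'
  obtain ⟨g, hg⟩ := (hK.ftd q hq).2 q' hqC'
  have hgC := foot_memC hC hqC hg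
  have hgg := foot_self hC hqC hg
  have ht' := foot_dec hC hqC hqC' hg
  have hsum : g + (q' - g) = q' := by abel
  have hfa := face hC hqC' hgC (mem_C ht') (by rw [hsum]; exact self hC hqC')
  have hqg : q + g ∈ Cn m := hC.add q hqC g hgC
  have hovg : Ov (Cn m) q g := by
    refine ov_of hov (left_fc hC hqC hgC) ?_
    rw [← hsum]
    exact add_fc hC hqg (right_fc hC hqC hgC) (tra hC hqg (left_fc hC hqC hgC) ht')
  obtain ⟨t, htx, htq, htq'⟩ := hK.meet q q' hq hq'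
  have hgt : g + t ∈ Fc (Cn m) q' := add_fc hC hqC' hfa.1 htq'
  have htf := h V m hK q g t hq ⟨hgC, hgg, hovg⟩ htq htx.2.1
  have hq'gt : q' ∈ Fc (Cn m) (g + t) := by
    by_contra hcon
    exact htf.2.1 (hK.bd q' (g + t) hq' hgt hcon)
  refine ⟨g, t, ⟨hgC, hgg, hovg⟩, htx, htq, htq', hfa.1, hq'gt, ?_⟩
  intro r hr hr'
  exact foot_face hC hqC hgC htq hgg hr (tra hC (mem_C hgt) hq'gt hr')

end Pool.Agent.H76.KW.TRR
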