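import Pool.Agent.H61.KW.TB

/-! Module of the board kw_modules. -/

set_option autoImplicit false

open Topology Set
open Pool.Agent.H59 Pool.Agent.H64.LB Pool.Agent.H61.KU Pool.Agent.H61.KV Pool.Agent.H61.KW

namespace Pool.Agent.H76.KW.ZED

theorem pf_ZED (h : T_DSB) : Pool.Agent.H61.KW.T_ZED := by
  intro V _ _ _ m hK p a u hp hau hu hd hdis
  obtain ⟨x, hx, hxp, hxau⟩ := hK.meet p (a + u) hp hau
  rcases (h V (Cn m) a u hK.cc hd).2.2.2.2.2 x hx hxau with hxa | hxu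
  · exact absurd (hdis x hxp hxa) hx.2.1
  · exact tra hK.cc (hK.mem p hp) hxp (ex_symm hK.cc hu hx hxu)

end Pool.Agent.H76.KW.ZED
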